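import Pool.Agent.Helper6.TRI.GDefs
import Pool.Agent.Helper64.GS.Scale

/-!
# TRI, block G1: generic points of a surface
-/

set_option autoImplicit false

namespace Pool.Agent.TRI

open Module MvPolynomial

universe u v w

section

variable {k₀ : Type u} [Field k₀]

/-- the coordinates times a variable -/
private noncomputable def ty97 {K : Type v} [CommRing K] {ι : Type*} (y : ι → K) (a : ι) :
    Polynomial K := Polynomial.X * Polynomial.C (y a)

private theorem cons_ind97 {K : Type v} [Field K] [Algebra k₀ K] {n : ℕ} {a : Fin n → K}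
    (ha : AlgebraicIndependent k₀ a) :
    AlgebraicIndependent k₀ (Fin.cons Polynomial.X (fun i => Polynomial.C (a i)) :
      Fin (n + 1) → Polynomial K) := by
  rw [algebraicIndependent_iff_injective_aeval] at ha ⊢
  have h1 : (aeval (Fin.cons Polynomial.X (fun i => Polynomial.C (a i)) :
      Fin (n + 1) → Polynomial K) : MvPolynomial (Fin (n + 1)) k₀ →ₐ[k₀] Polynomial K) =
      (Polynomial.mapAlgHom (aeval a : MvPolynomial (Fin n) k₀ →ₐ[k₀] K)).comp
        (finSuccEquiv k₀ n).toAlgHom := by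
    refine MvPolynomial.algHom_ext fun i => ?_
    refine Fin.cases ?_ (fun i => ?_) i
    · simp [finSuccEquiv_X_zero]
    · simp [finSuccEquiv_X_succ]
  rw [h1]
  intro p q hpq
  have h2 : Function.Injective (Polynomial.mapAlgHom (aeval a : MvPolynomial (Fin n) k₀ →ₐ[k₀] K)) :=
    Polynomial.map_injective _ ha
  exact (finSuccEquiv k₀ n).injective (h2 hpq)

/-- the variable and its multiples -/
private theorem ind97 {K : Type v} [Field K] [Algebra k₀ K] {n : ℕ} {a : Fin n → K}
    (ha : AlgebraicIndependent k₀ a) :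
    AlgebraicIndependent k₀ (ty97 (Fin.cons 1 a : Fin (n + 1) → K)) := by
  have h0 := cons_ind97 ha
  rw [algebraicIndependent_iff_injective_aeval] at h0 ⊢
  let R := MvPolynomial (Fin (n + 1)) k₀
  let F := FractionRing R
  let θ : R →ₐ[k₀] R := aeval (Fin.cons (X 0) (fun i : Fin n => X 0 * X i.succ))
  let x : Fin (n + 1) → F := fun i => algebraMap R F (X i)
  have hx0 : x 0 ≠ 0 := by
    intro h
    exact X_ne_zero (R := k₀) (0 : Fin (n + 1)) ((IsFractionRing.injective R F) (by rw [map_zero]; exact h))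
  let θ' : R →ₐ[k₀] F := aeval (Fin.cons (x 0) (fun i : Fin n => x i.succ / x 0))
  have hθ0 : θ (X 0) = X 0 := aeval_X _ _
  have hθs : ∀ i : Fin n, θ (X i.succ) = X 0 * X i.succ := fun i => aeval_X _ _
  have hθ'0 : θ' (X 0) = x 0 := aeval_X _ _
  have hθ's : ∀ i : Fin n, θ' (X i.succ) = x i.succ / x 0 := fun i => aeval_X _ _
  have hθ : ∀ p, θ' (θ p) = algebraMap R F p := by
    have h1 : θ'.comp θ = IsScalarTower.toAlgHom k₀ R F := by
      refine MvPolynomial.algHom_ext fun i => ?_
      refine Fin.cases ?_ (fun i => ?_) i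
      · show θ' (θ (X 0)) = algebraMap R F (X 0)
        rw [hθ0, hθ'0]
      · show θ' (θ (X i.succ)) = algebraMap R F (X i.succ)
        rw [hθs, map_mul, hθ'0, hθ's]
        exact mul_div_cancel₀ _ hx0
    intro p
    exact congrArg (fun f : R →ₐ[k₀] F => f p) h1
  have h1 : (aeval (ty97 (Fin.cons 1 a : Fin (n + 1) → K)) : R →ₐ[k₀] Polynomial K) =
      (aeval (Fin.cons Polynomial.X (fun i => Polynomial.C (a i)) :
        Fin (n + 1) → Polynomial K)).comp θ := by
    refine MvPolynomial.algHom_ext fun i => ?_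
    refine Fin.cases ?_ (fun i => ?_) i
    · simp [θ, ty97]
    · simp [θ, ty97]
  rw [h1]
  intro p q hpq
  have h2 : θ p = θ q := h0 hpq
  have h3 := congrArg θ' h2
  rw [hθ, hθ] at h3
  exact IsFractionRing.injective R F h3

private theorem aeval_hom97 {K : Type v} [Field K] [Algebra k₀ K] {ι : Type*}
    (y : ι → K) {f : MvPolynomial ι k₀} {d : ℕ} (hf : f.IsHomogeneous d) :
    aeval (ty97 y) f = Polynomial.X ^ d * Polynomial.C (aeval y f) := by
  have h1 := Pool.Agent.Helper64.GS.aeval_scale hf (Polynomial.X : Polynomial K)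
    (fun j => Polynomial.C (y j))
  refine h1.trans ?_
  congr 1
  have h2 := comp_aeval_apply y (Polynomial.CAlgHom : K →ₐ[k₀] Polynomial K) f
  exact h2.symm

/-- a proper quotient has smaller transcendence degree -/
private theorem inj97 {A : Type u} [CommRing A] [IsDomain A] [Algebra k₀ A] {B : Type v} [CommRing B]
    [Algebra k₀ B] (f : A →ₐ[k₀] B) {n : ℕ} (hn : Algebra.trdeg k₀ A ≤ n) (a : Fin n → A)
    (ha : AlgebraicIndependent k₀ (f ∘ a)) (s : A) (hs : f s = 0) : s = 0 := by
  classical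
  by_contra hs0
  have ha' : AlgebraicIndependent k₀ a := AlgebraicIndependent.of_comp f ha
  have halg : IsAlgebraic (Algebra.adjoin k₀ (Set.range a)) s := by
    by_contra htr
    have h1 := (ha'.option_iff_transcendental s).2 htr
    have h2 := h1.lift_cardinalMk_le_trdeg
    have h3 := h2.trans (Cardinal.lift_le.2 hn)
    rw [Cardinal.mk_fintype, Fintype.card_option, Fintype.card_fin] at h3
    simp only [Cardinal.lift_natCast] at h3
    have h4 : n + 1 ≤ n := by exact_mod_cast h3
    omega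
  obtain ⟨q, hq0, hq⟩ := halg.exists_nonzero_coeff_and_aeval_eq_zero
    (mem_nonZeroDivisors_of_ne_zero hs0)
  -- the constant coefficient
  have h1 : f (q.coeff 0 : A) = 0 := by
    have h2 := congrArg f hq
    rw [map_zero] at h2
    have h3 : Polynomial.aeval s q = (q.coeff 0 : A) + s * Polynomial.aeval s q.divX := by
      conv_lhs => rw [← Polynomial.divX_mul_X_add q]
      rw [map_add, map_mul, Polynomial.aeval_X, Polynomial.aeval_C]
      rw [mul_comm, add_comm]
      rfl
    rw [h3, map_add, map_mul, hs, zero_mul, add_zero] at h2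
    exact h2
  apply hq0
  obtain ⟨P, hP⟩ : ∃ P : MvPolynomial (Fin n) k₀, aeval a P = (q.coeff 0 : A) := by
    have h2 : ∀ y ∈ Algebra.adjoin k₀ (Set.range a), ∃ P : MvPolynomial (Fin n) k₀,
        aeval a P = y := by
      intro y hy
      rw [Algebra.adjoin_range_eq_range_aeval] at hy
      exact hy
    exact h2 _ (q.coeff 0).2
  have h2 : aeval (f ∘ a) P = 0 := by
    have h3 : aeval (f ∘ a) P = f (aeval a P) := (comp_aeval_apply a f P).symm
    rw [h3, hP, h1]
  have h3 : P = 0 := (algebraicIndependent_iff.1 ha) P h2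
  apply Subtype.ext
  rw [← hP, h3, map_zero]
  rfl

/-- independent coordinates -/
private theorem pts97 {K : Type v} [Field K] [Algebra k₀ K] {ι : Type w} (z : ι → K) (n : ℕ)
    (h : (n : Cardinal) ≤ Algebra.trdeg k₀ (IntermediateField.adjoin k₀ (Set.range z))) :
    ∃ g : Fin n → ι, AlgebraicIndependent k₀ (z ∘ g) := by
  classical
  let L := IntermediateField.adjoin k₀ (Set.range z)
  let t : Set L := {x | (x : K) ∈ Set.range z}
  have hadj : ∀ x : K, x ∈ Algebra.adjoin k₀ (Set.range z) →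
      ∃ y ∈ Algebra.adjoin k₀ t, ((y : L) : K) = x := by
    intro x hx
    have h1 : (Algebra.adjoin k₀ t).map L.val = Algebra.adjoin k₀ (Set.range z) := by
      rw [AlgHom.map_adjoin]
      congr 1
      ext x
      constructor
      · rintro ⟨y, hy, rfl⟩
        exact hy
      · intro hx
        exact ⟨⟨x, IntermediateField.subset_adjoin _ _ hx⟩, hx, rfl⟩
    rw [← h1] at hx
    obtain ⟨y, hy, rfl⟩ := hx
    exact ⟨y, hy, rfl⟩
  have halg : Algebra.IsAlgebraic (Algebra.adjoin k₀ t) L := by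
    refine ⟨fun x => ?_⟩
    obtain ⟨a, ha, b, hb, hab⟩ := IntermediateField.mem_adjoin_iff_div.1 x.2
    obtain ⟨a', ha', rfl⟩ := hadj a ha
    obtain ⟨b', hb', rfl⟩ := hadj b hb
    by_cases hb0 : b' = 0
    · have hx0 : x = 0 := by
        apply Subtype.ext
        rw [hab, hb0]
        simp
      rw [hx0]
      exact isAlgebraic_zero
    · refine ⟨Polynomial.C ⟨b', hb'⟩ * Polynomial.X - Polynomial.C ⟨a', ha'⟩, ?_, ?_⟩
      · intro h0
        have h1 := congrArg (fun p => Polynomial.coeff p 1) h0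
        simp only [Polynomial.coeff_sub, Polynomial.coeff_C_mul, Polynomial.coeff_X_one, mul_one,
          Polynomial.coeff_C_succ, sub_zero, Polynomial.coeff_zero] at h1
        exact hb0 (congrArg Subtype.val h1)
      · rw [map_sub, map_mul, Polynomial.aeval_C, Polynomial.aeval_C, Polynomial.aeval_X, sub_eq_zero]
        apply Subtype.ext
        show (b' : K) * (x : K) = (a' : K)
        rw [hab]
        have hb0' : (b' : K) ≠ 0 := fun h0 => hb0 (Subtype.ext h0)
        field_simp
  obtain ⟨u, hu1, hu2⟩ := exists_isTranscendenceBasis_subset (R := k₀) t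
  have hcard := hu2.cardinalMk_eq_trdeg
  rw [← hcard] at h
  obtain ⟨e⟩ : Nonempty (Fin n ↪ u) := by
    rw [← Cardinal.lift_mk_le', Cardinal.mk_fin]
    simp only [Cardinal.lift_natCast]
    have h1 := Cardinal.lift_le.{0}.2 h
    simpa using h1
  have h1 : ∀ i : Fin n, ∃ j, z j = ((e i : L) : K) := fun i => hu1 (e i).2
  choose g hg using h1
  refine ⟨g, ?_⟩
  have h2 : AlgebraicIndependent k₀ fun i : Fin n => ((e i : u) : L) := hu2.1.comp e e.injective
  have h3 := h2.map' (f := L.val) L.val.injective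
  have h4 : (z ∘ g) = L.val ∘ fun i : Fin n => ((e i : u) : L) := by
    funext i
    exact hg i
  rw [h4]
  exact h3

variable {N : ℕ} {I : Ideal (MvPolynomial (Fin (N + 1)) k₀)}

private theorem kill97 (hX : Surf I) {K : Type v} [Field K] [Algebra k₀ K] (z : Fin (N + 1) → K)
    (hz : OnX I z) : ∀ f ∈ I, aeval (ty97 z) f = 0 := by
  intro f hf
  rw [← sum_homogeneousComponent f, map_sum]
  refine Finset.sum_eq_zero fun i _ => ?_
  rw [aeval_hom97 z (homogeneousComponent_isHomogeneous i f), hz _ (hX.hom f hf i), map_zero,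
    mul_zero]

/-- the evaluation at the generic multiple of the point -/
private noncomputable def ev97 (hX : Surf I) {K : Type v} [Field K] [Algebra k₀ K]
    (z : Fin (N + 1) → K) (hz : OnX I z) :
    (MvPolynomial (Fin (N + 1)) k₀ ⧸ I) →ₐ[k₀] Polynomial K :=
  Ideal.Quotient.liftₐ I (aeval (ty97 z)) (kill97 hX z hz)

private theorem ev_mk97 (hX : Surf I) {K : Type v} [Field K] [Algebra k₀ K]
    (z : Fin (N + 1) → K) (hz : OnX I z) (f : MvPolynomial (Fin (N + 1)) k₀) :
    ev97 hX z hz (Ideal.Quotient.mk I f) = aeval (ty97 z) f := rfl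

private theorem ind_pts97 (hX : Surf I) {K : Type v} [Field K] [Algebra k₀ K]
    (z : Fin (N + 1) → K) (h1 : ∃ j, z j = 1) (hz : OnX I z) {n : ℕ} (g : Fin n → Fin (N + 1))
    (hg : AlgebraicIndependent k₀ (z ∘ g)) :
    ∃ a : Fin (n + 1) → (MvPolynomial (Fin (N + 1)) k₀ ⧸ I),
      AlgebraicIndependent k₀ (ev97 hX z hz ∘ a) := by
  obtain ⟨j, hj⟩ := h1
  refine ⟨Fin.cons (Ideal.Quotient.mk I (X j)) fun i => Ideal.Quotient.mk I (X (g i)), ?_⟩
  have h2 := ind97 hg
  have h3 : (ev97 hX z hz ∘ (Fin.cons (Ideal.Quotient.mk I (X j))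
      fun i => Ideal.Quotient.mk I (X (g i)) : Fin (n + 1) → (MvPolynomial (Fin (N + 1)) k₀ ⧸ I))) =
      ty97 (Fin.cons 1 (z ∘ g) : Fin (n + 1) → K) := by
    funext i
    refine Fin.cases ?_ (fun i => ?_) i
    · simp only [Function.comp_apply, Fin.cons_zero, ev_mk97, aeval_X, ty97, hj]
    · simp only [Function.comp_apply, Fin.cons_succ, ev_mk97, aeval_X, ty97]
  rw [h3]
  exact h2

end

section

variable {k₀ : Type u} [Field k₀] [CharZero k₀] {N : ℕ} {I : Ideal (MvPolynomial (Fin (N + 1)) k₀)}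

theorem generic (hX : Surf I) {K : Type*} [Field K] [Algebra k₀ K] (z : Fin (N + 1) → K) (h1 : ∃ j, z j = 1) (hz : OnX I z)
    (ht : 2 ≤ Algebra.trdeg k₀ (IntermediateField.adjoin k₀ (Set.range z))) (D : MvPolynomial (Fin (N + 1)) k₀) (e : ℕ)
    (hD : D.IsHomogeneous e) (h0 : aeval z D = 0) : D ∈ I := by
  have := hX.prime
  obtain ⟨g, hg⟩ := pts97 z 2 (by exact_mod_cast ht)
  obtain ⟨a, ha⟩ := ind_pts97 hX z h1 hz g hg
  have h2 := inj97 (ev97 hX z hz) (n := 3) (by rw [hX.tr]; norm_num) a ha (Ideal.Quotient.mk I D) (by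
    rw [ev_mk97, aeval_hom97 z hD, h0, map_zero, mul_zero])
  exact Ideal.Quotient.eq_zero_iff_mem.1 h2

theorem trdeg_le (hX : Surf I) {K : Type*} [Field K] [Algebra k₀ K] (z : Fin (N + 1) → K) (h1 : ∃ j, z j = 1) (hz : OnX I z) :
    Algebra.trdeg k₀ (IntermediateField.adjoin k₀ (Set.range z)) ≤ 2 := by
  have := hX.prime
  by_contra hcon
  rw [not_le] at hcon
  have h3 : ((3 : ℕ) : Cardinal) ≤ Algebra.trdeg k₀ (IntermediateField.adjoin k₀ (Set.range z)) := by
    have h4 := Order.succ_le_of_lt hcon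
    rw [← Nat.cast_ofNat, Cardinal.succ_natCast] at h4
    refine le_trans (le_of_eq ?_) h4
    norm_num
  obtain ⟨g, hg⟩ := pts97 z 3 h3
  obtain ⟨a, ha⟩ := ind_pts97 hX z h1 hz g hg
  have h2 := (AlgebraicIndependent.of_comp _ ha).lift_cardinalMk_le_trdeg
  rw [hX.tr, Cardinal.mk_fin] at h2
  simp only [Cardinal.lift_natCast] at h2
  have h4 : ((3 + 1 : ℕ) : Cardinal) ≤ ((3 : ℕ) : Cardinal) := by simpa using h2
  have h5 : 3 + 1 ≤ 3 := by exact_mod_cast h4
  omega

end

end Pool.Agent.TRI
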