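import Pool.Agent.Helper6.TRI.Defs

/-!
# TRI, block B5: an adapted basis
-/

set_option autoImplicit false

namespace Pool.Agent.TRI

open Module Pool.Agent.SQ

section

variable {k E : Type*} [Field k] [Field E] [Algebra k E]

/-- one step of the filtration by the values has codimension at most `f` -/
private theorem codim97 {ω : E → ℝ} {γ : ℝ} {f : ℕ} (h : DVal k ω γ f) (W : Submodule k E)
    [FiniteDimensional k W] (c : ℝ) :
    finrank k ↥(W ⊓ lev h.rv c) ≤ finrank k ↥(W ⊓ lev h.rv (c + γ)) + f := by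
  by_contra hcon
  push Not at hcon
  obtain ⟨A, hA⟩ : ∃ A : Submodule k E, A = W ⊓ lev h.rv c := ⟨_, rfl⟩
  obtain ⟨B, hB⟩ : ∃ B : Submodule k E, B = W ⊓ lev h.rv (c + γ) := ⟨_, rfl⟩
  rw [← hA, ← hB] at hcon
  have hAW : A ≤ W := by rw [hA]; exact inf_le_left
  have hfA : FiniteDimensional k A := Submodule.finiteDimensional_of_le hAW
  have hAmem : ∀ z, z ∈ A → z = 0 ∨ c ≤ ω z := by
    intro z hz
    rw [hA] at hz
    exact hz.2
  have hBmem : ∀ z, z ∈ W → c + γ ≤ ω z → z ∈ B := by
    intro z hz hz2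
    rw [hB]
    exact ⟨hz, Or.inr hz2⟩
  have hBA : B ≤ A := by
    intro x hx
    rw [hB] at hx
    rw [hA]
    refine ⟨hx.1, ?_⟩
    rcases hx.2 with h0 | h0
    · exact Or.inl h0
    · exact Or.inr (by linarith [h.γ0])
  let Bc : Submodule k A := B.comap A.subtype
  have hBc : finrank k Bc = finrank k B :=
    (Submodule.comapSubtypeEquivOfLe hBA).finrank_eq
  have hq := Submodule.finrank_quotient_add_finrank Bc
  have hq2 : f + 1 ≤ finrank k (A ⧸ Bc) := by omega
  obtain ⟨y, hy⟩ := exists_linearIndependent_of_le_finrank hq2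
  have hlift : ∀ i, ∃ x : A, Bc.mkQ x = y i := fun i => Bc.mkQ_surjective (y i)
  choose x hx using hlift
  -- combinations
  have hcomb : ∀ a : Fin (f + 1) → k, a ≠ 0 →
      (∑ i, a i • (x i : E)) ≠ 0 ∧ c ≤ ω (∑ i, a i • (x i : E)) ∧
        ω (∑ i, a i • (x i : E)) < c + γ := by
    intro a ha
    have h1 : (∑ i, a i • x i) ∉ Bc := by
      intro hmem
      have h2 : Bc.mkQ (∑ i, a i • x i) = 0 := by
        rw [Submodule.mkQ_apply, Submodule.Quotient.mk_eq_zero]
        exact hmem
      rw [map_sum] at h2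
      simp only [map_smul, hx] at h2
      exact ha (funext (Fintype.linearIndependent_iff.1 hy a h2))
    have h3 : ((∑ i, a i • x i : A) : E) = ∑ i, a i • (x i : E) := by
      push_cast
      rfl
    have h4 : (∑ i, a i • (x i : E)) ∈ A := by
      rw [← h3]
      exact (∑ i, a i • x i : A).2
    have h5 : (∑ i, a i • (x i : E)) ∉ B := by
      rw [← h3]
      exact h1
    have h0 : (∑ i, a i • (x i : E)) ≠ 0 := by
      intro h0
      rw [h0] at h5
      exact h5 B.zero_mem
    have h6 : c ≤ ω (∑ i, a i • (x i : E)) := by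
      rcases hAmem _ h4 with h8 | h8
      · exact absurd h8 h0
      · exact h8
    refine ⟨h0, h6, ?_⟩
    by_contra hge
    rw [not_lt] at hge
    exact h5 (hBmem _ (hAW h4) hge)
  -- the values are all equal
  have hval : ∀ a a' : Fin (f + 1) → k, a ≠ 0 → a' ≠ 0 →
      ω (∑ i, a i • (x i : E)) = ω (∑ i, a' i • (x i : E)) := by
    intro a a' ha ha'
    obtain ⟨h0, h1, h2⟩ := hcomb a ha
    obtain ⟨h0', h1', h2'⟩ := hcomb a' ha'
    obtain ⟨n, hn⟩ := h.dvd _ h0
    obtain ⟨n', hn'⟩ := h.dvd _ h0'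
    rw [hn] at h1 h2 ⊢
    rw [hn'] at h1' h2' ⊢
    have h3 : (n : ℝ) < n' + 1 := by
      by_contra hge
      rw [not_lt] at hge
      nlinarith [h.γ0]
    have h4 : (n' : ℝ) < n + 1 := by
      by_contra hge
      rw [not_lt] at hge
      nlinarith [h.γ0]
    have h5 : n = n' := by
      have i1 : n < n' + 1 := by exact_mod_cast h3
      have i2 : n' < n + 1 := by exact_mod_cast h4
      omega
    rw [h5]
  have hone : (fun i : Fin (f + 1) => if i = 0 then (1 : k) else 0) ≠ 0 := by
    intro h0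
    have h1 := congrFun h0 0
    simp at h1
  have hx0 : ∑ i, (fun i : Fin (f + 1) => if i = 0 then (1 : k) else 0) i • (x i : E) = x 0 := by
    simp
  have hx0' : (x 0 : E) ≠ 0 := by
    rw [← hx0]
    exact (hcomb _ hone).1
  have h1 := h.max (f + 1) (fun i => (x i : E) / x 0) (by
    intro a ha
    have h2 : ∑ i, a i • ((x i : E) / x 0) = (∑ i, a i • (x i : E)) * (x 0 : E)⁻¹ := by
      rw [Finset.sum_mul]
      refine Finset.sum_congr rfl fun i _ => ?_
      rw [div_eq_mul_inv, smul_mul_assoc]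
    have hne := (hcomb a ha).1
    have hinv : ω (x 0 : E)⁻¹ = - ω (x 0 : E) := by
      have h3 := h.rv.mul (x 0 : E) (x 0 : E)⁻¹ hx0' (inv_ne_zero hx0')
      rw [mul_inv_cancel₀ hx0'] at h3
      have h4 := h.rv.alg 1 one_ne_zero
      rw [map_one] at h4
      linarith
    refine ⟨?_, ?_⟩
    · rw [h2]
      exact mul_ne_zero hne (inv_ne_zero hx0')
    · rw [h2, h.rv.mul _ _ hne (inv_ne_zero hx0'), hinv, hval a _ ha hone, hx0]
      ring)
  omega

/-- a basis adapted to a chain of subspaces -/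
private theorem chain97 {d : ℕ} (S : ℕ → Submodule k E)
    (hd : ∀ i < d, d ≤ finrank k (S i) + i) :
    ∀ n ≤ d, ∃ z : Fin n → E, LinearIndependent k z ∧ ∀ j : Fin n, z j ∈ S (d - n + j) := by
  intro n
  induction n with
  | zero =>
    intro _
    exact ⟨Fin.elim0, linearIndependent_empty_type, fun j => j.elim0⟩
  | succ n ih =>
    intro hn
    obtain ⟨z, hz1, hz2⟩ := ih (by omega)
    have h1 : ∃ y ∈ S (d - (n + 1)), y ∉ Submodule.span k (Set.range z) := by
      by_contra hcon
      push Not at hcon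
      have h2 : S (d - (n + 1)) ≤ Submodule.span k (Set.range z) := hcon
      have h3 : finrank k (Submodule.span k (Set.range z)) = n := by
        rw [finrank_span_eq_card hz1, Fintype.card_fin]
      have hfd : FiniteDimensional k (Submodule.span k (Set.range z)) :=
        FiniteDimensional.span_of_finite k (Set.finite_range z)
      have h4 := Submodule.finrank_mono h2
      have h5 := hd (d - (n + 1)) (by omega)
      omega
    obtain ⟨y, hy1, hy2⟩ := h1
    refine ⟨Fin.cons y z, ?_, ?_⟩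
    · rw [linearIndependent_finCons]
      exact ⟨hz1, hy2⟩
    · intro j
      refine Fin.cases ?_ (fun j => ?_) j
      · simpa using hy1
      · rw [Fin.cons_succ]
        have h2 := hz2 j
        have h3 : d - (n + 1) + ((j.succ : Fin (n + 1)) : ℕ) = d - n + j := by
          rw [Fin.val_succ]
          omega
        rw [h3]
        exact h2

theorem adapted {ω : E → ℝ} {γ : ℝ} {f : ℕ} (h : DVal k ω γ f) (W : Submodule k E) [FiniteDimensional k W] (b : ℝ)
    (hb : ∀ x ∈ W, x ≠ 0 → b ≤ ω x) :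
    ∃ z : Fin (finrank k W) → E, LinearIndependent k z ∧ (∀ i, z i ∈ W) ∧ ∀ i : Fin (finrank k W), b + γ * (((i : ℕ) / f : ℕ) : ℝ) ≤ ω (z i) := by
  obtain ⟨d, hd⟩ : ∃ d : ℕ, d = finrank k W := ⟨_, rfl⟩
  let S : ℕ → Submodule k E := fun i => W ⊓ lev h.rv (b + γ * ((i / f : ℕ) : ℝ))
  have hSW : ∀ i, S i ≤ W := fun i => inf_le_left
  have hdim : ∀ j : ℕ, d ≤ finrank k ↥(W ⊓ lev h.rv (b + γ * (j : ℝ))) + j * f := by
    intro j
    induction j with
    | zero =>
      have h1 : W ⊓ lev h.rv (b + γ * ((0 : ℕ) : ℝ)) = W := by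
        refine le_antisymm inf_le_left fun x hx => ⟨hx, ?_⟩
        by_cases h0 : x = 0
        · exact Or.inl h0
        · refine Or.inr ?_
          rw [Nat.cast_zero, mul_zero, add_zero]
          exact hb x hx h0
      rw [h1, hd]
      omega
    | succ j ih =>
      have h1 := codim97 h W (b + γ * (j : ℝ))
      have h2 : b + γ * ((j + 1 : ℕ) : ℝ) = b + γ * (j : ℝ) + γ := by
        push_cast
        ring
      rw [h2, Nat.succ_mul]
      omega
  obtain ⟨z, hz1, hz2⟩ := chain97 (d := d) S (by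
      intro i _
      have h1 := hdim (i / f)
      have h2 : i / f * f ≤ i := Nat.div_mul_le_self i f
      have h3 : finrank k ↥(S i) = finrank k ↥(W ⊓ lev h.rv (b + γ * ((i / f : ℕ) : ℝ))) := rfl
      omega) d le_rfl
  subst hd
  refine ⟨z, hz1, fun i => hSW _ (hz2 i), fun i => ?_⟩
  have h1 := hz2 i
  rw [Nat.sub_self, Nat.zero_add] at h1
  rcases h1.2 with h2 | h2
  · exact absurd h2 (hz1.ne_zero i)
  · exact h2

end

end Pool.Agent.TRI
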